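import Pool.Agent.Y746.OJ.Stm
import Pool.Agent.Y929.OM.Nl

/-! The formula for `S0` with the kernel of project OM (job OJ-SK, for helper746). -/

set_option autoImplicit false

namespace Pool.Agent.Y954.OJ

open Finset Filter Topology MeasureTheory
open H370 (zset mult NN Zf zz)
open Pool.Agent.Y746.OM
open Pool.Agent.Y746.OJ

/-- the coefficients of the error of the sum over prime powers -/
noncomputable def cc (n : ℕ) : ℝ :=
  ArithmeticFunction.vonMangoldt n / (Real.sqrt n * Real.log n) * Real.exp (-(Real.log n) ^ 2 / 8)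

lemma coef_nonneg (n : ℕ) : 0 ≤ ArithmeticFunction.vonMangoldt n / (Real.sqrt n * Real.log n) :=
  div_nonneg ArithmeticFunction.vonMangoldt_nonneg
    (mul_nonneg (Real.sqrt_nonneg _) (Real.log_natCast_nonneg n))

lemma coef_le (n : ℕ) : ArithmeticFunction.vonMangoldt n / (Real.sqrt n * Real.log n) ≤ 1 := by
  rcases Nat.eq_zero_or_pos n with h | h
  · subst h
    simp
  · refine div_le_one_of_le₀ ?_ (mul_nonneg (Real.sqrt_nonneg _) (Real.log_natCast_nonneg n))
    have h1 : (1 : ℝ) ≤ Real.sqrt n := by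
      rw [Real.one_le_sqrt]
      exact_mod_cast h
    have h2 := Real.log_natCast_nonneg n
    calc ArithmeticFunction.vonMangoldt n ≤ Real.log n := ArithmeticFunction.vonMangoldt_le_log
      _ = 1 * Real.log n := (one_mul _).symm
      _ ≤ Real.sqrt n * Real.log n := mul_le_mul_of_nonneg_right h1 h2

lemma cc_nonneg (n : ℕ) : 0 ≤ cc n := mul_nonneg (coef_nonneg n) (Real.exp_pos _).le

lemma cc_le (n : ℕ) : cc n ≤ Real.exp 8 * (1 / (n : ℝ) ^ 2) := by
  rcases Nat.eq_zero_or_pos n with h | h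
  · subst h
    simp [cc]
  · have hn : (0 : ℝ) < n := by exact_mod_cast h
    have h1 : Real.exp (-(Real.log n) ^ 2 / 8) ≤ Real.exp 8 * (1 / (n : ℝ) ^ 2) := by
      have h2 : (1 : ℝ) / (n : ℝ) ^ 2 = Real.exp (-(2 * Real.log n)) := by
        rw [Real.exp_neg, one_div]
        congr 1
        have h3 : (2 : ℝ) * Real.log n = ((2 : ℕ) : ℝ) * Real.log n := by norm_num
        rw [h3, Real.exp_nat_mul, Real.exp_log hn]
      rw [h2, ← Real.exp_add]
      apply Real.exp_le_exp.2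
      nlinarith [sq_nonneg (Real.log n - 8)]
    calc cc n ≤ 1 * Real.exp (-(Real.log n) ^ 2 / 8) :=
          mul_le_mul_of_nonneg_right (coef_le n) (Real.exp_pos _).le
      _ ≤ _ := by rw [one_mul]; exact h1

lemma cc_summable : Summable cc :=
  Summable.of_nonneg_of_le cc_nonneg cc_le
    ((Real.summable_one_div_nat_pow.2 one_lt_two).mul_left _)

lemma cpow_im (n : ℕ) (hn : 1 ≤ n) (t r : ℝ) :
    ((n : ℂ) ^ (-((t : ℂ) * Complex.I)) * (r : ℂ)).im = -(Real.sin (t * Real.log n) * r) := by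
  have hn0 : (n : ℂ) ≠ 0 := by exact_mod_cast (by omega : n ≠ 0)
  have h1 : Complex.log (n : ℂ) * -((t : ℂ) * Complex.I) =
      ((-(t * Real.log n) : ℝ) : ℂ) * Complex.I := by
    rw [← Complex.natCast_log]
    push_cast
    ring
  rw [Complex.cpow_def_of_ne_zero hn0, h1, Complex.im_mul_ofReal, Complex.exp_ofReal_mul_I_im,
    Real.sin_neg]
  ring

lemma abs_int_le (B l c E : ℝ) (hB : 0 < B)
    (h : ∀ u, 0 < u → u ≤ B → Real.exp (-(u + c * l) ^ 2 / 2) ≤ E) :
    |∫ u in (0 : ℝ)..B, (1 - u / B) * Real.exp (-(u + c * l) ^ 2 / 2)| ≤ B * E := by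
  have h1 := intervalIntegral.norm_integral_le_of_norm_le_const (a := 0) (b := B) (C := E)
    (f := fun u : ℝ => (1 - u / B) * Real.exp (-(u + c * l) ^ 2 / 2)) (fun u hu => by
      rw [Set.uIoc_of_le hB.le] at hu
      have h2 : |1 - u / B| ≤ 1 := by
        have h3 : 0 < u / B := div_pos hu.1 hB
        have h4 : u / B ≤ 1 := (div_le_one hB).2 hu.2
        rw [abs_le]
        constructor <;> linarith
      rw [Real.norm_eq_abs, abs_mul, abs_of_pos (Real.exp_pos _)]
      have h5 := h u hu.1 hu.2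
      calc |1 - u / B| * Real.exp (-(u + c * l) ^ 2 / 2) ≤
          1 * Real.exp (-(u + c * l) ^ 2 / 2) := by gcongr
        _ ≤ E := by rw [one_mul]; exact h5)
  rw [Real.norm_eq_abs, sub_zero, abs_of_pos hB] at h1
  linarith

lemma RR_le (B : ℝ) (hB : 0 < B) (n : ℕ) :
    |∫ u in (0 : ℝ)..B, (1 - u / B) * Real.exp (-(u + Real.log n) ^ 2 / 2)| ≤
      B * Real.exp (-(Real.log n) ^ 2 / 8) := by
  have h := abs_int_le B (Real.log n) 1 (Real.exp (-(Real.log n) ^ 2 / 8)) hB (fun u hu _ => by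
    apply Real.exp_le_exp.2
    have h1 := Real.log_natCast_nonneg n
    nlinarith [mul_nonneg hu.le h1])
  simpa only [one_mul] using h

lemma GB_le (B : ℝ) (hB : 0 < B) (n : ℕ) (hn : 2 * B ≤ Real.log n) :
    |GB B n| ≤ B * Real.exp (-(Real.log n) ^ 2 / 8) := by
  have h := abs_int_le B (Real.log n) (-1) (Real.exp (-(Real.log n) ^ 2 / 8)) hB
    (fun u hu hu2 => by
      apply Real.exp_le_exp.2
      have h1 := Real.log_natCast_nonneg n
      nlinarith [mul_nonneg (show (0 : ℝ) ≤ Real.log n / 2 - u by linarith)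
        (show (0 : ℝ) ≤ Real.log n / 2 - u + Real.log n by linarith)])
  unfold GB
  have h2 : (fun u : ℝ => (1 - u / B) * Real.exp (-(u - Real.log n) ^ 2 / 2)) =
      fun u : ℝ => (1 - u / B) * Real.exp (-(u + -1 * Real.log n) ^ 2 / 2) := by
    funext u
    congr 3
    ring
  rw [h2]
  exact h

/-- the sum over prime powers -/
lemma prime_sum (B T t : ℝ) (hB : 1 ≤ B) (hT : 1 ≤ T) (hTB : 2 * B ≤ Real.log T / 8)
    (hV : ∀ n : ℕ, 1 ≤ n → VH (KB B) (Real.log n) = ((Real.sqrt (2 * Real.pi) *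
      (GB B n + ∫ u in (0 : ℝ)..B, (1 - u / B) * Real.exp (-(u + Real.log n) ^ 2 / 2)) : ℝ) : ℂ)) :
    |(∑' n : ℕ, ArithmeticFunction.vonMangoldt n / (Real.sqrt n * Real.log n) *
          ((n : ℂ) ^ (-((t : ℂ) * Complex.I)) * VH (KB B) (Real.log n)).im) +
      Real.sqrt (2 * Real.pi) * ∑ n ∈ Icc 2 ⌊T ^ (1 / 8 : ℝ)⌋₊,
        ArithmeticFunction.vonMangoldt n / (Real.sqrt n * Real.log n) * GB B n *
          Real.sin (t * Real.log n)| ≤
      Real.sqrt (2 * Real.pi) * (2 * B) * ∑' n, cc n := by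
  classical
  have hB0 : 0 < B := by linarith
  set q := Real.sqrt (2 * Real.pi) with hq
  have hq0 : 0 ≤ q := Real.sqrt_nonneg _
  set R : ℕ → ℝ := fun n =>
    ∫ u in (0 : ℝ)..B, (1 - u / B) * Real.exp (-(u + Real.log n) ^ 2 / 2) with hR
  set a : ℕ → ℝ := fun n => ArithmeticFunction.vonMangoldt n / (Real.sqrt n * Real.log n) with ha
  set F : ℕ → ℝ := fun n => a n *
    ((n : ℂ) ^ (-((t : ℂ) * Complex.I)) * VH (KB B) (Real.log n)).im with hF
  set N := ⌊T ^ (1 / 8 : ℝ)⌋₊ with hN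
  set G : ℕ → ℝ := fun n => if n ∈ Icc 2 N then
    -(q * (a n * GB B n * Real.sin (t * Real.log n))) else 0 with hG
  have hFn : ∀ n, F n = -(q * (a n * Real.sin (t * Real.log n) * (GB B n + R n))) := by
    intro n
    rcases Nat.eq_zero_or_pos n with h | h
    · subst h
      simp [hF, ha]
    · simp only [hF]
      rw [hV n h, cpow_im n h]
      simp only [hR]
      ring
  have hbound : ∀ n, ‖F n - G n‖ ≤ q * (2 * B) * cc n := by
    intro n
    rw [hFn n, Real.norm_eq_abs]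
    have hs : |Real.sin (t * Real.log n)| ≤ 1 := Real.abs_sin_le_one _
    have hR1 : |R n| ≤ B * Real.exp (-(Real.log n) ^ 2 / 8) := RR_le B hB0 n
    have ha0 : 0 ≤ a n := coef_nonneg n
    have hcc : cc n = a n * Real.exp (-(Real.log n) ^ 2 / 8) := rfl
    have hE : 0 ≤ B * Real.exp (-(Real.log n) ^ 2 / 8) := by positivity
    by_cases hn : n ∈ Icc 2 N
    · simp only [hG, if_pos hn]
      have h1 : -(q * (a n * Real.sin (t * Real.log n) * (GB B n + R n))) -
          -(q * (a n * GB B n * Real.sin (t * Real.log n))) =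
          -(q * a n * (Real.sin (t * Real.log n) * R n)) := by ring
      rw [h1, abs_neg, abs_mul, abs_of_nonneg (mul_nonneg hq0 ha0), abs_mul, hcc]
      have h2 : |Real.sin (t * Real.log n)| * |R n| ≤
          1 * (B * Real.exp (-(Real.log n) ^ 2 / 8)) :=
        mul_le_mul hs hR1 (abs_nonneg _) zero_le_one
      calc q * a n * (|Real.sin (t * Real.log n)| * |R n|) ≤
          q * a n * (2 * (B * Real.exp (-(Real.log n) ^ 2 / 8))) := by
            gcongr
            linarith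
        _ = _ := by ring
    · simp only [hG, if_neg hn, sub_zero]
      rw [mem_Icc, not_and_or, not_le, not_le] at hn
      rcases Nat.lt_or_ge n 2 with h2 | h2
      · have h3 : a n = 0 := by
          interval_cases n
          · simp [ha]
          · simp [ha]
        rw [h3]
        simp only [zero_mul, mul_zero, neg_zero, abs_zero]
        have := cc_nonneg n
        positivity
      · have h3 : N < n := by
          rcases hn with h | h
          · omega
          · exact h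
        have h4 : T ^ (1 / 8 : ℝ) < n := Nat.lt_of_floor_lt h3
        have h5 : 2 * B ≤ Real.log n := by
          have h6 : Real.log (T ^ (1 / 8 : ℝ)) ≤ Real.log n :=
            Real.log_le_log (Real.rpow_pos_of_pos (by linarith) _) h4.le
          rw [Real.log_rpow (by linarith)] at h6
          linarith
        have hG1 := GB_le B hB0 n h5
        rw [abs_neg, abs_mul, abs_of_nonneg hq0, abs_mul, abs_mul, abs_of_nonneg ha0, hcc]
        have h7 : |GB B n + R n| ≤ 2 * (B * Real.exp (-(Real.log n) ^ 2 / 8)) :=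
          (abs_add_le _ _).trans (by linarith)
        calc q * (a n * |Real.sin (t * Real.log n)| * |GB B n + R n|) ≤
            q * (a n * 1 * (2 * (B * Real.exp (-(Real.log n) ^ 2 / 8)))) := by gcongr
          _ = _ := by ring
  have hcs : HasSum (fun n => q * (2 * B) * cc n) (q * (2 * B) * ∑' n, cc n) :=
    cc_summable.hasSum.mul_left _
  have hsm : Summable (fun n => F n - G n) := Summable.of_norm_bounded hcs.summable hbound
  have hGs : HasSum G (∑ n ∈ Icc 2 N, G n) := hasSum_sum_of_ne_finset_zero fun n hn => by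
    simp only [hG, if_neg hn]
  have hFs : HasSum F (∑ n ∈ Icc 2 N, G n + ∑' n, (F n - G n)) := by
    have h1 := hGs.add hsm.hasSum
    have h2 : (fun n => G n + (F n - G n)) = F := by
      funext n
      ring
    rwa [h2] at h1
  have hGv : ∑ n ∈ Icc 2 N, G n =
      -(q * ∑ n ∈ Icc 2 N, a n * GB B n * Real.sin (t * Real.log n)) := by
    rw [Finset.mul_sum, ← Finset.sum_neg_distrib]
    refine Finset.sum_congr rfl fun n hn => ?_
    simp only [hG, if_pos hn]
  rw [hFs.tsum_eq, hGv]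
  have h1 : -(q * ∑ n ∈ Icc 2 N, a n * GB B n * Real.sin (t * Real.log n)) +
      ∑' n, (F n - G n) + q * ∑ n ∈ Icc 2 N, a n * GB B n * Real.sin (t * Real.log n) =
      ∑' n, (F n - G n) := by ring
  rw [h1]
  exact tsum_of_norm_bounded hcs hbound

/-- the zeros -/
lemma zero_sum (Ck Cl T L B δ t U1 U2 : ℝ) (hCk : 0 ≤ Ck) (hT : 10 ≤ T) (hL1 : 1 ≤ L)
    (hB0 : 0 ≤ B) (hBL : B ≤ 8 * L) (hexp : Real.exp (B / 2) = L ^ 4) (hδ : 0 < δ)
    (hδB : δ * B ≤ 1) (hU1 : T ≤ U1) (hU2 : U2 ≤ 2 * T)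
    (hk1 : ∀ z : ℂ, |z.im| * B ≤ 1 →
      |(KB B z).im| ≤ Ck * |z.im| * B ^ 2 * Real.exp (-z.re ^ 2 / 4))
    (hk2 : ∀ z : ℂ, |z.im| ≤ 1 / 2 →
      ‖KB B z‖ ≤ 2 * B * Real.exp (B / 2) * Real.exp (-z.re ^ 2 / 2))
    (hsum : ∑ s ∈ Zf riemannZeta U1 U2, (mult riemannZeta s : ℝ) *
      Real.exp (-(s.im - t) ^ 2 / 4) ≤ Cl * L) :
    |∑ s ∈ ZR U1 U2 (1 / 2), (mult riemannZeta s : ℝ) *
          ∫ w in (0 : ℝ)..(s.re - 1 / 2),
            (KB B (((s.im - t : ℝ) : ℂ) - (w : ℂ) * Complex.I)).im| ≤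
      Ck * δ ^ 2 * B ^ 2 * (Cl * L) +
      8 * L ^ 5 * ∑ s ∈ (Zf riemannZeta T (2 * T)).filter (fun s => δ ≤ |s.re - 1 / 2|),
        (mult riemannZeta s : ℝ) * Real.exp (-(s.im - t) ^ 2 / 2) := by
  classical
  have hU1' : 1 ≤ U1 := by linarith
  have hT' : 1 ≤ T := by linarith
  have hre : ∀ (x w : ℝ), ((x : ℂ) - (w : ℂ) * Complex.I).re = x := by
    intro x w; simp
  have him : ∀ (x w : ℝ), ((x : ℂ) - (w : ℂ) * Complex.I).im = -w := by
    intro x w; simp
  -- one zero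
  have hD : ∀ s ∈ ZR U1 U2 (1 / 2), |∫ w in (0 : ℝ)..(s.re - 1 / 2),
      (KB B (((s.im - t : ℝ) : ℂ) - (w : ℂ) * Complex.I)).im| ≤
      Ck * δ ^ 2 * B ^ 2 * Real.exp (-(s.im - t) ^ 2 / 4) +
        if δ ≤ |s.re - 1 / 2| then 8 * L ^ 5 * Real.exp (-(s.im - t) ^ 2 / 2) else 0 := by
    intro s hs
    unfold ZR at hs
    rw [Finset.mem_filter] at hs
    obtain ⟨hs, hb⟩ := hs
    have hs' := (H370.mem_Zf H370.good_zeta hU1').mp hs
    have hb0 : 0 < s.re - 1 / 2 := by linarith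
    have hb1 : s.re - 1 / 2 ≤ 1 / 2 := by linarith [hs'.2.1]
    by_cases hfar : δ ≤ |s.re - 1 / 2|
    · rw [if_pos hfar]
      have h1 := intervalIntegral.norm_integral_le_of_norm_le_const (a := 0) (b := s.re - 1 / 2)
        (C := 2 * B * L ^ 4 * Real.exp (-(s.im - t) ^ 2 / 2))
        (f := fun w : ℝ => (KB B (((s.im - t : ℝ) : ℂ) - (w : ℂ) * Complex.I)).im)
        (fun w hw => by
          rw [Set.uIoc_of_le hb0.le] at hw
          have h2 := hk2 (((s.im - t : ℝ) : ℂ) - (w : ℂ) * Complex.I) (by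
            rw [him, abs_neg, abs_of_pos hw.1]
            linarith [hw.2])
          rw [hre, hexp] at h2
          rw [Real.norm_eq_abs]
          exact (Complex.abs_im_le_norm _).trans h2)
      rw [Real.norm_eq_abs, sub_zero, abs_of_pos hb0] at h1
      refine h1.trans ?_
      have h3 : 0 ≤ Ck * δ ^ 2 * B ^ 2 * Real.exp (-(s.im - t) ^ 2 / 4) := by positivity
      have h4 : 2 * B * L ^ 4 * Real.exp (-(s.im - t) ^ 2 / 2) * (s.re - 1 / 2) ≤
          2 * (8 * L) * L ^ 4 * Real.exp (-(s.im - t) ^ 2 / 2) * (1 / 2) := by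
        have h5 : 0 ≤ L := by linarith
        gcongr
      have h6 : 2 * (8 * L) * L ^ 4 * Real.exp (-(s.im - t) ^ 2 / 2) * (1 / 2) =
          8 * L ^ 5 * Real.exp (-(s.im - t) ^ 2 / 2) := by ring
      linarith
    · rw [if_neg hfar, add_zero]
      push Not at hfar
      rw [abs_of_pos hb0] at hfar
      have h1 := intervalIntegral.norm_integral_le_of_norm_le_const (a := 0) (b := s.re - 1 / 2)
        (C := Ck * δ * B ^ 2 * Real.exp (-(s.im - t) ^ 2 / 4))
        (f := fun w : ℝ => (KB B (((s.im - t : ℝ) : ℂ) - (w : ℂ) * Complex.I)).im)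
        (fun w hw => by
          rw [Set.uIoc_of_le hb0.le] at hw
          have hwδ : w ≤ δ := hw.2.trans hfar.le
          have h2 := hk1 (((s.im - t : ℝ) : ℂ) - (w : ℂ) * Complex.I) (by
            rw [him, abs_neg, abs_of_pos hw.1]
            exact (mul_le_mul_of_nonneg_right hwδ hB0).trans hδB)
          rw [hre, him, abs_neg, abs_of_pos hw.1] at h2
          rw [Real.norm_eq_abs]
          refine h2.trans ?_
          gcongr)
      rw [Real.norm_eq_abs, sub_zero, abs_of_pos hb0] at h1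
      refine h1.trans ?_
      calc Ck * δ * B ^ 2 * Real.exp (-(s.im - t) ^ 2 / 4) * (s.re - 1 / 2) ≤
          Ck * δ * B ^ 2 * Real.exp (-(s.im - t) ^ 2 / 4) * δ := by gcongr
        _ = _ := by ring
  have hsub : ZR U1 U2 (1 / 2) ⊆ Zf riemannZeta U1 U2 := by
    unfold ZR
    exact Finset.filter_subset _ _
  have hstep : |∑ s ∈ ZR U1 U2 (1 / 2), (mult riemannZeta s : ℝ) *
          ∫ w in (0 : ℝ)..(s.re - 1 / 2),
            (KB B (((s.im - t : ℝ) : ℂ) - (w : ℂ) * Complex.I)).im| ≤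
      Ck * δ ^ 2 * B ^ 2 * (∑ s ∈ Zf riemannZeta U1 U2, (mult riemannZeta s : ℝ) *
        Real.exp (-(s.im - t) ^ 2 / 4)) +
      8 * L ^ 5 * ∑ s ∈ (Zf riemannZeta U1 U2).filter (fun s => δ ≤ |s.re - 1 / 2|),
        (mult riemannZeta s : ℝ) * Real.exp (-(s.im - t) ^ 2 / 2) := by
    have h1 : |∑ s ∈ ZR U1 U2 (1 / 2), (mult riemannZeta s : ℝ) *
          ∫ w in (0 : ℝ)..(s.re - 1 / 2),
            (KB B (((s.im - t : ℝ) : ℂ) - (w : ℂ) * Complex.I)).im| ≤
        ∑ s ∈ ZR U1 U2 (1 / 2), (mult riemannZeta s : ℝ) *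
          (Ck * δ ^ 2 * B ^ 2 * Real.exp (-(s.im - t) ^ 2 / 4) +
            if δ ≤ |s.re - 1 / 2| then 8 * L ^ 5 * Real.exp (-(s.im - t) ^ 2 / 2) else 0) := by
      refine (Finset.abs_sum_le_sum_abs _ _).trans (Finset.sum_le_sum fun s hs => ?_)
      rw [abs_mul, abs_of_nonneg (Nat.cast_nonneg _)]
      exact mul_le_mul_of_nonneg_left (hD s hs) (Nat.cast_nonneg _)
    refine h1.trans ?_
    have h2 : ∑ s ∈ ZR U1 U2 (1 / 2), (mult riemannZeta s : ℝ) *
          (Ck * δ ^ 2 * B ^ 2 * Real.exp (-(s.im - t) ^ 2 / 4) +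
            if δ ≤ |s.re - 1 / 2| then 8 * L ^ 5 * Real.exp (-(s.im - t) ^ 2 / 2) else 0) ≤
        ∑ s ∈ Zf riemannZeta U1 U2, (mult riemannZeta s : ℝ) *
          (Ck * δ ^ 2 * B ^ 2 * Real.exp (-(s.im - t) ^ 2 / 4) +
            if δ ≤ |s.re - 1 / 2| then 8 * L ^ 5 * Real.exp (-(s.im - t) ^ 2 / 2) else 0) := by
      refine Finset.sum_le_sum_of_subset_of_nonneg hsub fun s _ _ => ?_
      refine mul_nonneg (Nat.cast_nonneg _) (add_nonneg (by positivity) ?_)
      split_ifs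
      · positivity
      · exact le_rfl
    refine h2.trans (le_of_eq ?_)
    rw [Finset.sum_filter, Finset.mul_sum, Finset.mul_sum, ← Finset.sum_add_distrib]
    refine Finset.sum_congr rfl fun s _ => ?_
    split_ifs
    · ring
    · ring
  refine hstep.trans (add_le_add ?_ ?_)
  · gcongr
  · have h6 : ∑ s ∈ (Zf riemannZeta U1 U2).filter (fun s => δ ≤ |s.re - 1 / 2|),
        (mult riemannZeta s : ℝ) * Real.exp (-(s.im - t) ^ 2 / 2) ≤
        ∑ s ∈ (Zf riemannZeta T (2 * T)).filter (fun s => δ ≤ |s.re - 1 / 2|),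
        (mult riemannZeta s : ℝ) * Real.exp (-(s.im - t) ^ 2 / 2) := by
      refine Finset.sum_le_sum_of_subset_of_nonneg ?_ fun _ _ _ => by positivity
      intro s hs
      rw [Finset.mem_filter] at hs ⊢
      refine ⟨?_, hs.2⟩
      have hs' := (H370.mem_Zf H370.good_zeta hU1').mp hs.1
      rw [H370.mem_Zf H370.good_zeta hT']
      exact ⟨hs'.1, hs'.2.1, lt_of_le_of_lt hU1 hs'.2.2.1, hs'.2.2.2.1.trans hU2, hs'.2.2.2.2⟩
    exact mul_le_mul_of_nonneg_left h6 (by positivity)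

/-- **The formula for `S0` with the kernel of project OM.** -/
theorem t_SK (hSF : S_SF) (hKV : S_KV) (hK : Pool.Agent.Y746.OM.S_KER) : S_SK := by
  classical
  obtain ⟨C1, T1, hC1, -, hS⟩ := hSF
  obtain ⟨Ck, hCk, hKV⟩ := hKV
  obtain ⟨C3, -, hKer⟩ := hK
  obtain ⟨Cl, hCl, hsum⟩ := Pool.Agent.Y929.OM.sum4
  have hev : ∀ᶠ T : ℝ in atTop, 8 * Real.log (Real.log T) ≤ (Real.log T) ^ (1 / 3 : ℝ) ∧
      1 ≤ Real.log (Real.log T) ∧ 128 * Real.log (Real.log T) ≤ Real.log T ∧
      8 * Real.log T ^ 9 ≤ T ∧ 10 ≤ T := by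
    have h1 : ∀ᶠ x : ℝ in atTop, 8 * Real.log x ≤ x ^ (1 / 3 : ℝ) := by
      have h2 := (isLittleO_log_rpow_atTop (r := 1 / 3) (by norm_num)).bound
        (show (0 : ℝ) < 1 / 8 by norm_num)
      filter_upwards [h2, eventually_ge_atTop 1] with x hx hx1
      rw [Real.norm_of_nonneg (Real.log_nonneg hx1),
        Real.norm_of_nonneg (Real.rpow_nonneg (by linarith) _)] at hx
      linarith
    have h2 : ∀ᶠ x : ℝ in atTop, 128 * Real.log x ≤ x := by
      have h2 := Real.isLittleO_log_id_atTop.bound (show (0 : ℝ) < 1 / 128 by norm_num)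
      filter_upwards [h2, eventually_ge_atTop 1] with x hx hx1
      rw [Real.norm_of_nonneg (Real.log_nonneg hx1), id_eq,
        Real.norm_of_nonneg (by linarith : (0 : ℝ) ≤ x)] at hx
      linarith
    have h3 : ∀ᶠ x : ℝ in atTop, 1 ≤ Real.log x := Real.tendsto_log_atTop.eventually_ge_atTop 1
    have h4 : ∀ᶠ x : ℝ in atTop, 8 * x ^ 9 ≤ Real.exp x := by
      have h5 := (Real.isLittleO_pow_exp_atTop (n := 9)).bound (show (0 : ℝ) < 1 / 8 by norm_num)
      filter_upwards [h5, eventually_ge_atTop 0] with x hx hx0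
      rw [Real.norm_of_nonneg (by positivity), Real.norm_of_nonneg (Real.exp_pos x).le] at hx
      linarith
    filter_upwards [Real.tendsto_log_atTop.eventually h1, Real.tendsto_log_atTop.eventually h3,
      Real.tendsto_log_atTop.eventually h2, Real.tendsto_log_atTop.eventually h4,
      eventually_ge_atTop 10] with T e1 e2 e3 e4 e5
    rw [Real.exp_log (by linarith)] at e4
    exact ⟨e1, e2, e3, e4, e5⟩
  obtain ⟨T2, hT2⟩ := hev.exists_forall_of_atTop
  set K0 := ∑' n, cc n with hK0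
  have hK00 : 0 ≤ K0 := tsum_nonneg cc_nonneg
  have hpi := Real.pi_pos
  refine ⟨C1 * (8 + Ck) + 1 / Real.pi * (Real.sqrt (2 * Real.pi) * 16 * K0) + 128 * Ck * Cl + 16,
    max (max T1 T2) 10, by positivity, le_max_right _ _, ?_⟩
  intro T hT
  obtain ⟨hB3, hLL, hL128, hL9, hT10⟩ :=
    hT2 T ((le_max_right T1 T2).trans ((le_max_left _ _).trans hT))
  obtain ⟨U1, U2, hU1, hU1', hU2', hU2, hmain⟩ :=
    hS T ((le_max_left T1 T2).trans ((le_max_left _ _).trans hT))
  refine ⟨U1, U2, hU1, hU1', hU2', hU2, ?_⟩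
  intro t ht1 ht2 δ hδ0 hδ
  obtain ⟨L, hL⟩ : ∃ L, L = Real.log T := ⟨_, rfl⟩
  obtain ⟨B, hB⟩ : ∃ B, B = 8 * Real.log L := ⟨_, rfl⟩
  rw [← hL] at hB3 hLL hL128 hL9 hδ ⊢
  have hL0 : 0 < L := by
    have h4 : 0 < Real.log T := Real.log_pos (by linarith)
    rw [hL]
    exact h4
  have hLlog : Real.log L ≤ L := (Real.log_le_sub_one_of_pos hL0).trans (by linarith)
  have hL1 : 1 ≤ L := hLL.trans hLlog
  have hB1 : 1 ≤ B := by rw [hB]; linarith
  have hBL : B ≤ 8 * L := by rw [hB]; linarith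
  have hexp : Real.exp (B / 2) = L ^ 4 := by
    have h5 : B / 2 = (4 : ℕ) * Real.log L := by
      rw [hB]
      push_cast
      ring
    rw [h5, Real.exp_nat_mul, Real.exp_log hL0]
  have hexpB : Real.exp B = L ^ 8 := by
    have h5 : B = (8 : ℕ) * Real.log L := by
      rw [hB]
      push_cast
      ring
    rw [h5, Real.exp_nat_mul, Real.exp_log hL0]
  have hδB : δ * B ≤ 1 := by
    have haL : L ^ (-(1 / 3) : ℝ) * L ^ (1 / 3 : ℝ) = 1 := by
      rw [← Real.rpow_add hL0]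
      norm_num
    rw [← haL]
    refine mul_le_mul hδ ?_ (by linarith) (Real.rpow_nonneg hL0.le _)
    rw [hB]
    exact hB3
  obtain ⟨hOK, hVH, hk1, -, hk2⟩ := hKV B hB1
  obtain ⟨hKR, -⟩ := hKer B hB1
  rw [← hB]
  have hM := hmain (KB B) B (Ck * B * Real.exp B) (by linarith) (by positivity) hOK t
    (by rw [← hL] at ht1 ⊢; exact ht1) (by rw [← hL] at ht2 ⊢; exact ht2)
  -- the integral
  have e1 : (∫ y in U1..U2, S0 y * (KB B ((y - t : ℝ) : ℂ)).re) =
      ∫ y in U1..U2, S0 y * KR B (y - t) := by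
    refine intervalIntegral.integral_congr fun y _ => ?_
    change S0 y * (KB B ((y - t : ℝ) : ℂ)).re = S0 y * KR B (y - t)
    rw [hKR (y - t), Complex.ofReal_re]
  rw [e1] at hM
  have hP := prime_sum B T t hB1 (by linarith) (by rw [← hL, hB]; linarith) hVH
  have hZ := zero_sum Ck Cl T L B δ t U1 U2 hCk.le hT10 hL1 (by linarith) hBL hexp hδ0 hδB hU1 hU2
    hk1 hk2 (by rw [hL]; exact hsum T (by linarith) U1 U2 hU1 hU2 t)
  rw [← hK0] at hP
  set X := ∫ y in U1..U2, S0 y * KR B (y - t) with hX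
  set A := ∑' n : ℕ, ArithmeticFunction.vonMangoldt n / (Real.sqrt n * Real.log n) *
          ((n : ℂ) ^ (-((t : ℂ) * Complex.I)) * VH (KB B) (Real.log n)).im with hA
  set P := ∑ n ∈ Icc 2 ⌊T ^ (1 / 8 : ℝ)⌋₊,
        ArithmeticFunction.vonMangoldt n / (Real.sqrt n * Real.log n) * GB B n *
          Real.sin (t * Real.log n) with hPd
  set Z := ∑ s ∈ ZR U1 U2 (1 / 2), (mult riemannZeta s : ℝ) *
          ∫ w in (0 : ℝ)..(s.re - 1 / 2),
            (KB B (((s.im - t : ℝ) : ℂ) - (w : ℂ) * Complex.I)).im with hZd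
  set W := ∑ s ∈ (Zf riemannZeta T (2 * T)).filter (fun s => δ ≤ |s.re - 1 / 2|),
        (mult riemannZeta s : ℝ) * Real.exp (-(s.im - t) ^ 2 / 2) with hW
  have hW0 : 0 ≤ W := Finset.sum_nonneg fun _ _ => by positivity
  set q := Real.sqrt (2 * Real.pi) with hq
  have hq0 : 0 ≤ q := Real.sqrt_nonneg _
  have hid : X + q / Real.pi * P = (X - 1 / Real.pi * A - 2 * Z) + 1 / Real.pi * (A + q * P) +
      2 * Z := by
    field_simp
    ring
  rw [hid]
  have hMT : Ck * B * Real.exp B / T ≤ Ck := by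
    rw [hexpB, div_le_iff₀ (by linarith)]
    have h1 : B * L ^ 8 ≤ T := by
      calc B * L ^ 8 ≤ 8 * L * L ^ 8 := by gcongr
        _ = 8 * L ^ 9 := by ring
        _ ≤ T := hL9
    calc Ck * B * L ^ 8 = Ck * (B * L ^ 8) := by ring
      _ ≤ Ck * T := by gcongr
  have hll : 1 ≤ Real.log L ^ 2 := one_le_pow₀ hLL
  have hll2 : Real.log L ≤ Real.log L ^ 2 := by nlinarith
  have f1 : |X - 1 / Real.pi * A - 2 * Z| ≤ C1 * (8 + Ck) * Real.log L ^ 2 := by
    refine hM.trans ?_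
    calc C1 * (B + Ck * B * Real.exp B / T) ≤ C1 * (8 * Real.log L ^ 2 + Ck * Real.log L ^ 2) := by
          have h1 : B ≤ 8 * Real.log L ^ 2 := by rw [hB]; linarith
          have h2 : Ck * B * Real.exp B / T ≤ Ck * Real.log L ^ 2 := by
            refine hMT.trans ?_
            calc Ck = Ck * 1 := (mul_one _).symm
              _ ≤ Ck * Real.log L ^ 2 := by gcongr
          gcongr
      _ = _ := by ring
  have f2 : |1 / Real.pi * (A + q * P)| ≤ 1 / Real.pi * (q * 16 * K0) * Real.log L ^ 2 := by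
    rw [abs_mul, abs_of_pos (by positivity : (0 : ℝ) < 1 / Real.pi), mul_assoc]
    refine mul_le_mul_of_nonneg_left (hP.trans ?_) (by positivity)
    rw [hB]
    calc q * (2 * (8 * Real.log L)) * K0 = q * 16 * K0 * Real.log L := by ring
      _ ≤ q * 16 * K0 * Real.log L ^ 2 := by gcongr
  have f3 : |2 * Z| ≤ 128 * Ck * Cl * (δ ^ 2 * L) * Real.log L ^ 2 + 16 * L ^ 5 * W := by
    rw [abs_mul, abs_of_pos (by norm_num : (0 : ℝ) < 2)]
    have h1 := mul_le_mul_of_nonneg_left hZ (by norm_num : (0 : ℝ) ≤ 2)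
    refine h1.trans (le_of_eq ?_)
    rw [hB]
    ring
  have hδL : 0 ≤ δ ^ 2 * L := by positivity
  have g1 : 0 ≤ C1 * (8 + Ck) := by positivity
  have g2 : 0 ≤ 1 / Real.pi * (q * 16 * K0) := by positivity
  have g3 : 0 ≤ 128 * Ck * Cl := by positivity
  set c1 := C1 * (8 + Ck) with hc1
  set c2 := 1 / Real.pi * (q * 16 * K0) with hc2
  set c3 := 128 * Ck * Cl with hc3
  set l2 := Real.log L ^ 2 with hl2
  have hl20 : 0 ≤ l2 := by linarith
  have hLW : 0 ≤ L ^ 5 * W := by positivity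
  calc |(X - 1 / Real.pi * A - 2 * Z) + 1 / Real.pi * (A + q * P) + 2 * Z| ≤
      |(X - 1 / Real.pi * A - 2 * Z) + 1 / Real.pi * (A + q * P)| + |2 * Z| := abs_add_le _ _
    _ ≤ |X - 1 / Real.pi * A - 2 * Z| + |1 / Real.pi * (A + q * P)| + |2 * Z| := by
        gcongr
        exact abs_add_le _ _
    _ ≤ c1 * l2 + c2 * l2 + (c3 * (δ ^ 2 * L) * l2 + 16 * L ^ 5 * W) := by
        gcongr
    _ ≤ (c1 + c2 + c3 + 16) * (1 + δ ^ 2 * L) * l2 + (c1 + c2 + c3 + 16) * L ^ 5 * W := by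
        have k1 : 0 ≤ c1 * (δ ^ 2 * L) * l2 := by positivity
        have k2 : 0 ≤ c2 * (δ ^ 2 * L) * l2 := by positivity
        have k3 : 0 ≤ c3 * l2 := by positivity
        have k4 : 0 ≤ 16 * (1 + δ ^ 2 * L) * l2 := by positivity
        have k5 : 0 ≤ (c1 + c2 + c3) * (L ^ 5 * W) := by positivity
        nlinarith

end Pool.Agent.Y954.OJ
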